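import Mathlib
import Pool.Agent.Helper32.Distortion

/-!
# Posets whose products with arbitrary posets obey the Distortion formula

`Dist (P × Q) = max (Dist P) (Dist Q)` for large classes of pairs of finite posets.
-/

set_option autoImplicit false

namespace Pool.Agent.Results.MP_96500d_co.StableClass

open Pool.Agent.Helper32.Distortion (Distortion_le_iff)

/-- `d(a,b)`: the least length of a fence from `a` to `b` (`⊤` if there is none), i.e. the distance
in the comparability graph. -/
noncomputable def d {A : Type} [PartialOrder A] (a b : A) : ℕ∞ :=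
  (SimpleGraph.fromRel (fun x y : A => x ≤ y)).edist a b

/-- The Distortion of a poset: the supremum over all order-preserving `f : A → A` of the infimum
over all `a` of `d(a, f a)`. -/
noncomputable def Dist (A : Type) [PartialOrder A] : ℕ∞ :=
  ⨆ f : A →o A, ⨅ a : A, d a (f a)

/-- Two order-preserving maps are homotopic if they are joined by a fence in the (pointwise ordered)
poset of order-preserving maps. -/
def Homotopic {A B : Type} [PartialOrder A] [PartialOrder B] (g h : A →o B) : Prop :=
  Relation.ReflTransGen (fun f g : A →o B => f ≤ g ∨ g ≤ f) g h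

/-- Homotopy equivalence of posets (for finite posets: the cores are isomorphic). -/
def HEquiv (A B : Type) [PartialOrder A] [PartialOrder B] : Prop :=
  ∃ (i : A →o B) (r : B →o A), Homotopic (r.comp i) OrderHom.id ∧ Homotopic (i.comp r) OrderHom.id

/-- The fixed point property. -/
def FPP (A : Type) [PartialOrder A] : Prop := ∀ g : A →o A, ∃ a, g a = a

/-- `P` is stable if the Distortion formula holds for `P × Q`, for every finite nonempty `Q`. -/
def Stable (P : Type) [PartialOrder P] : Prop :=
  ∀ (Q : Type) [PartialOrder Q] [Finite Q] [Nonempty Q], Dist (P × Q) = max (Dist P) (Dist Q)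

/-- Main theorem. -/
theorem result :
    -- (1) height at most one
    (∀ (P : Type) [PartialOrder P] [Finite P] [Nonempty P],
      (∀ x y z : P, ¬ (x < y ∧ y < z)) → Stable P) ∧
    -- (2) width at most two
    (∀ (P : Type) [PartialOrder P] [Finite P] [Nonempty P],
      (∀ a b c : P, a ≤ b ∨ b ≤ a ∨ b ≤ c ∨ c ≤ b ∨ a ≤ c ∨ c ≤ a) → Stable P) ∧
    -- (3) closure under products
    (∀ (P P' : Type) [PartialOrder P] [Finite P] [Nonempty P] [PartialOrder P'] [Finite P']
      [Nonempty P'], Stable P → Stable P' → Stable (P × P')) ∧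
    -- (4) invariance under homotopy equivalence
    (∀ (P P' : Type) [PartialOrder P] [Finite P] [Nonempty P] [PartialOrder P'] [Finite P']
      [Nonempty P'], HEquiv P P' → Dist P = Dist P' ∧ (Stable P → Stable P')) ∧
    -- (5) at most three minimal, or at most three maximal elements (e.g. width at most three)
    (∀ (P Q : Type) [PartialOrder P] [Finite P] [Nonempty P] [PartialOrder Q] [Finite Q]
      [Nonempty Q], ({m : P | IsMin m}.ncard ≤ 3 ∨ {m : P | IsMax m}.ncard ≤ 3) →
        ¬ (FPP P ∧ FPP Q) → Dist (P × Q) = max (Dist P) (Dist Q)) ∧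
    -- (6) a bound for all pairs: `P` has a minimal or maximal element of eccentricity `≤ 2n+1`
    (∀ (P Q : Type) [PartialOrder P] [Finite P] [Nonempty P] [PartialOrder Q] [Finite Q]
      [Nonempty Q] (x : P) (n : ℕ), (IsMin x ∨ IsMax x) → (∀ p, d x p ≤ (2 * n + 1 : ℕ)) →
        Dist (P × Q) ≤ max (Dist Q) (2 * n : ℕ)) := by
  have hprod : ∀ (P P' : Type) [PartialOrder P] [Finite P] [Nonempty P] [PartialOrder P']
      [Finite P'] [Nonempty P'], HEquiv P P' → Dist P = Dist P' := by
    intro P P' _ _ _ _ _ _ h
    exact Helper32.Distortion.HEquiv.eq h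
  have hcore : ∀ (P : Type) [PartialOrder P] [Finite P] [Nonempty P] (r : P →o P),
      Homotopic OrderHom.id r → (¬ ∃ x y z : P, r x < r y ∧ r y < r z) → Stable P := by
    intro P _ _ _ r hr h3 Q _ _ _
    exact Helper32.Distortion.distortion_prod r hr h3
  have h5 : (∀ (P Q : Type) [PartialOrder P] [Finite P] [Nonempty P] [PartialOrder Q] [Finite Q]
      [Nonempty Q], ({m : P | IsMin m}.ncard ≤ 3 ∨ {m : P | IsMax m}.ncard ≤ 3) →
        ¬ (FPP P ∧ FPP Q) → Dist (P × Q) = max (Dist P) (Dist Q)) := by
    intro P Q _ _ _ _ _ _ h hF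
    exact Helper32.Distortion.formula_three P Q h hF
  refine ⟨?_, ?_, ?_, ?_, h5, ?_⟩
  · intro P _ _ _ h
    exact hcore P OrderHom.id Relation.ReflTransGen.refl (fun ⟨x, y, z, h1⟩ => h x y z h1)
  · intro P _ _ _ hw
    by_cases hF : FPP P
    · obtain ⟨c, hc⟩ := Helper32.Distortion.contractible_of_width_two _ P rfl hF hw
      exact hcore P _ hc (fun ⟨x, y, z, h1, _⟩ => lt_irrefl c h1)
    · intro Q _ _ _
      refine h5 P Q (Or.inl ?_) (fun h => hF h.1)
      by_contra hcon
      push Not at hcon
      have h2 : 2 < {m : P | IsMin m}.ncard := by omega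
      obtain ⟨a, b, c, ha, hb, hc, hab, hac, hbc⟩ :=
        (Set.two_lt_ncard_iff (Set.toFinite _)).mp h2
      rcases hw a b c with h | h | h | h | h | h
      · exact hab (le_antisymm h (hb h))
      · exact hab (le_antisymm (ha h) h)
      · exact hbc (le_antisymm h (hc h))
      · exact hbc (le_antisymm (hb h) h)
      · exact hac (le_antisymm h (hc h))
      · exact hac (le_antisymm (ha h) h)
  · intro P P' _ _ _ _ _ _ h h' Q _ _ _
    have e1 : Dist ((P × P') × Q) = Dist (P × (P' × Q)) := Helper32.Distortion.Distortion_assoc P P' Q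
    rw [e1, h (P' × Q), h' Q, h P', max_assoc]
  · intro P P' _ _ _ _ _ _ h
    refine ⟨hprod P P' h, fun hs Q _ _ _ => ?_⟩
    have e1 : Dist (P × Q) = Dist (P' × Q) :=
      Helper32.Distortion.HEquiv.eq (Helper32.Distortion.HEquiv.prod Q h)
    rw [← e1, hs Q, hprod P P' h]
  · intro P Q _ _ _ _ _ _ x n hx hecc
    change Helper32.Distortion.Distortion (P × Q) ≤ max (Helper32.Distortion.Distortion Q) _
    by_cases htop : max (Helper32.Distortion.Distortion Q) ((2 * n : ℕ) : ℕ∞) = ⊤
    · rw [htop]; exact le_top
    obtain ⟨m, hm⟩ := ENat.ne_top_iff_exists.mp htop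
    have hQ : Helper32.Distortion.Distortion Q ≤ m := hm ▸ le_max_left _ _
    have hn : 2 * n ≤ m := by
      have : ((2 * n : ℕ) : ℕ∞) ≤ m := hm ▸ le_max_right _ _
      exact_mod_cast this
    rw [Distortion_le_iff] at hQ
    rw [← hm, Distortion_le_iff]
    intro f
    refine Helper32.Distortion.near_ecc x hx (m/2) ?_ hQ f
    intro p
    refine le_trans (hecc p) ?_
    have : 2 * n + 1 ≤ 2 * (m/2) + 1 := by omega
    exact_mod_cast this

end Pool.Agent.Results.MP_96500d_co.StableClass
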